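import Mathlib

/-!
# MP_c8cc4c_co : definitions

Finite 2-complexes with the combinatorial properties of a sphere (`PC`, `PC.IsSphere`), chains with
coefficients in `ZMod 2`, distances by walks (`Near`), mouths and the glued complex.
-/

open scoped Classical
open Finset

noncomputable section

namespace Pool.Agent.H.MP_c8cc4c_co

/-! ### Distances -/

/-- There is a walk of length at most `n` from `x` to `y` with all its vertices in `A`. -/
def Near {V : Type} (G : SimpleGraph V) (A : Set V) (n : ℕ) (x y : V) : Prop :=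
  ∃ p : G.Walk x y, p.length ≤ n ∧ ∀ v ∈ p.support, v ∈ A

/-- `A` is nonempty and any two of its vertices are joined by a walk in `A`. -/
def ConnOn {V : Type} (G : SimpleGraph V) (A : Set V) : Prop :=
  A.Nonempty ∧ ∀ x ∈ A, ∀ y ∈ A, ∃ n, Near G A n x y

/-- `C` is a connected component of the subgraph induced by `A`. -/
def IsComp {V : Type} (G : SimpleGraph V) (A C : Set V) : Prop :=
  ConnOn G C ∧ C ⊆ A ∧ ∀ x ∈ C, ∀ y ∈ A, G.Adj x y → y ∈ C

/-! ### Complexes -/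

/-- A finite 2-complex, given by incidence relations. -/
structure PC where
  V : Type
  E : Type
  F : Type
  [finV : Fintype V]
  [finE : Fintype E]
  [finF : Fintype F]
  inc : E → V → Prop
  bd : F → E → Prop

attribute [instance] PC.finV PC.finE PC.finF

namespace PC

variable (M : PC)

/-- the face `f` is at the vertex `v` -/
def At (f : M.F) (v : M.V) : Prop := ∃ e, M.bd f e ∧ M.inc e v

/-- the graph of the complex -/
def graph : SimpleGraph M.V where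
  Adj x y := x ≠ y ∧ ∃ e, M.inc e x ∧ M.inc e y
  symm := ⟨fun _ _ h => ⟨h.1.symm, by obtain ⟨e, h1, h2⟩ := h.2; exact ⟨e, h2, h1⟩⟩⟩
  loopless := ⟨fun _ h => h.1 rfl⟩

/-- boundary of a face chain -/
def dF (c : M.F → ZMod 2) (e : M.E) : ZMod 2 := ∑ f ∈ univ.filter (fun f => M.bd f e), c f

/-- boundary of an edge chain -/
def dE (z : M.E → ZMod 2) (v : M.V) : ZMod 2 := ∑ e ∈ univ.filter (fun e => M.inc e v), z e

/-- the edge chain `z` is even (a cycle) -/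
def Ev (z : M.E → ZMod 2) : Prop := ∀ v, M.dE z v = 0

/-- number of edges in `z` -/
def wt (z : M.E → ZMod 2) : ℕ := (univ.filter fun e => z e ≠ 0).card

/-- vertices on the edges of `z` -/
def vs (z : M.E → ZMod 2) : Set M.V := {v | ∃ e, z e ≠ 0 ∧ M.inc e v}

/-- vertices all of whose faces are in `c` -/
def intr (c : M.F → ZMod 2) : Set M.V := {x | ∀ f, M.At f x → c f = 1}

/-- edges with exactly one end in `S` -/
def cut (S : Set M.V) : Finset M.E :=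
  univ.filter fun e => (∃ x, M.inc e x ∧ x ∈ S) ∧ ∃ y, M.inc e y ∧ y ∉ S

/-- number of edges at `v` -/
def deg (v : M.V) : ℕ := (univ.filter fun e => M.inc e v).card

/-- number of edges of the face `f` -/
def len (f : M.F) : ℕ := (univ.filter fun e => M.bd f e).card

def Quad : Prop := ∀ f, M.len f = 4

def Simple : Prop := ∀ e e' x y, x ≠ y → M.inc e x → M.inc e y → M.inc e' x → M.inc e' y → e = e'

/-- The combinatorial properties of a polyhedral sphere. -/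
structure IsSphere : Prop where
  inc_two : ∀ e, ∃ x y, x ≠ y ∧ ∀ v, M.inc e v ↔ v = x ∨ v = y
  bd_two : ∀ e, ∃ f g, f ≠ g ∧ ∀ h, M.bd h e ↔ h = f ∨ h = g
  face_two : ∀ f v, M.At f v → ∃ e e', e ≠ e' ∧ ∀ d, (M.bd f d ∧ M.inc d v) ↔ d = e ∨ d = e'
  face_ne : ∀ f, ∃ e, M.bd f e
  face_cyc : ∀ f (z : M.E → ZMod 2), M.Ev z → (∀ e, z e ≠ 0 → M.bd f e) →
    z = 0 ∨ ∀ e, M.bd f e → z e ≠ 0
  conn : ∀ x y : M.V, ∃ n, Near M.graph Set.univ n x y
  nonempty : Nonempty M.V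
  star : ∀ (v : M.V) (c : M.F → ZMod 2), (∀ e, M.inc e v → M.dF c e = 0) →
    ∀ f g, M.At f v → M.At g v → c f = c g
  h1 : ∀ z : M.E → ZMod 2, M.Ev z → ∃ c : M.F → ZMod 2, M.dF c = z

/-! ### Cells and the subdivision -/

/-- cells: vertices, edges, faces -/
def Cell : Type := M.V ⊕ M.E ⊕ M.F

instance : Fintype M.Cell := by unfold Cell; infer_instance

def cv (x : M.V) : M.Cell := Sum.inl x
def ce (e : M.E) : M.Cell := Sum.inr (Sum.inl e)
def cf (f : M.F) : M.Cell := Sum.inr (Sum.inr f)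

/-- `c` is a proper face of `d` -/
def below : M.Cell → M.Cell → Prop
  | Sum.inl x, Sum.inr (Sum.inl e) => M.inc e x
  | Sum.inl x, Sum.inr (Sum.inr f) => M.At f x
  | Sum.inr (Sum.inl e), Sum.inr (Sum.inr f) => M.bd f e
  | _, _ => False

/-- The barycentric subdivision as a complex: vertices = cells, edges = comparable pairs,
faces = flags `v < e < f`. -/
def sdPC : PC where
  V := M.Cell
  E := {p : M.Cell × M.Cell // M.below p.1 p.2}
  F := {t : M.V × M.E × M.F // M.inc t.2.1 t.1 ∧ M.bd t.2.2 t.2.1}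
  finV := inferInstance
  finE := inferInstance
  finF := inferInstance
  inc p c := c = p.1.1 ∨ c = p.1.2
  bd t p := p.1 = (M.cv t.1.1, M.ce t.1.2.1) ∨ p.1 = (M.cv t.1.1, M.cf t.1.2.2) ∨
    p.1 = (M.ce t.1.2.1, M.cf t.1.2.2)

/-- the graph of the barycentric subdivision -/
def sd : SimpleGraph M.Cell := M.sdPC.graph

/-- all faces are triangles, and different faces have different edges -/
def Tri : Prop := (∀ f, M.len f = 3) ∧ ∀ f g, (∀ e, M.bd f e → M.bd g e) → f = g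

end PC

/-! ### The rectangular grid -/

/-- the boundary point number `t` of the rectangle `[0,a] x [0,b]`, `t < 2(a+b)` -/
def bpt (a b t : ℕ) : ℕ × ℕ :=
  if t ≤ a then (t, 0)
  else if t ≤ a + b then (a, t - a)
  else if t ≤ 2 * a + b then (2 * a + b - t, b)
  else (0, 2 * (a + b) - t)

/-- the cell at the boundary edge number `t` (from boundary point `t` to `t + 1`) -/
def bcell (a b t : ℕ) : ℕ × ℕ :=
  if t < a then (t, 0)
  else if t < a + b then (a - 1, t - a)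
  else if t < 2 * a + b then (2 * a + b - t - 1, b - 1)
  else (0, 2 * (a + b) - t - 1)

/-- number of the boundary point `(x, y)` -/
def bix (a b x y : ℕ) : ℕ :=
  if y = 0 then x else if x = a then a + y else if y = b then 2 * a + b - x
  else 2 * (a + b) - y

/-! ### Mouths and gluing -/

/-- Mouths: pairwise disjoint discs `c i` bounded by cycles of length `2 (a i + b i)`. -/
structure Mouths (M : PC) where
  I : Type
  [finI : Fintype I]
  a : I → ℕ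
  b : I → ℕ
  ha : ∀ i, 1 ≤ a i
  hab : ∀ i, a i ≤ b i
  hba : ∀ i, b i ≤ a i + 1
  c : I → M.F → ZMod 2
  gv : I → ℕ → M.V
  ge : I → ℕ → M.E
  gv_per : ∀ i t, gv i (t + 2 * (a i + b i)) = gv i t
  ge_per : ∀ i t, ge i (t + 2 * (a i + b i)) = ge i t
  gv_inj : ∀ i s t, s < 2 * (a i + b i) → t < 2 * (a i + b i) → gv i s = gv i t → s = t
  ge_inc : ∀ i t, M.inc (ge i t) (gv i t) ∧ M.inc (ge i t) (gv i (t + 1))
  dc : ∀ i e, M.dF (c i) e ≠ 0 ↔ ∃ t, ge i t = e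
  disj : ∀ i j f, c i f ≠ 0 → c j f ≠ 0 → i = j
  edge : ∀ i e, (∀ f, M.bd f e → c i f = 1) → ∃ x, M.inc e x ∧ x ∈ M.intr (c i)

attribute [instance] Mouths.finI

namespace Mouths

variable {M : PC} (Mo : Mouths M)

/-- length of the boundary of the mouth -/
def n (i : Mo.I) : ℕ := 2 * (Mo.a i + Mo.b i)

/-- the vertices which stay -/
def Real : Set M.V := {x | ∀ i, x ∉ M.intr (Mo.c i)}

/-- raw grid point -/
def gp (i : Mo.I) (x y : ℕ) : M.V ⊕ (Mo.I × ℕ × ℕ) :=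
  if 0 < x ∧ x < Mo.a i ∧ 0 < y ∧ y < Mo.b i then Sum.inr (i, x, y)
  else Sum.inl (Mo.gv i (bix (Mo.a i) (Mo.b i) x y))

def okV : M.V ⊕ (Mo.I × ℕ × ℕ) → Prop
  | Sum.inl x => x ∈ Mo.Real
  | Sum.inr (i, x, y) => 0 < x ∧ x < Mo.a i ∧ 0 < y ∧ y < Mo.b i

def okE : M.E ⊕ (Mo.I × Bool × ℕ × ℕ) → Prop
  | Sum.inl e => ∀ x, M.inc e x → x ∈ Mo.Real
  | Sum.inr (i, false, x, y) => x < Mo.a i ∧ 0 < y ∧ y < Mo.b i
  | Sum.inr (i, true, x, y) => 0 < x ∧ x < Mo.a i ∧ y < Mo.b i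

def okF : M.F ⊕ (Mo.I × ℕ × ℕ) → Prop
  | Sum.inl f => ∀ i, Mo.c i f = 0
  | Sum.inr (i, x, y) => x < Mo.a i ∧ y < Mo.b i

/-- raw incidence edge - vertex -/
def rinc : M.E ⊕ (Mo.I × Bool × ℕ × ℕ) → M.V ⊕ (Mo.I × ℕ × ℕ) → Prop
  | Sum.inl e, v => ∃ x, M.inc e x ∧ v = Sum.inl x
  | Sum.inr (i, false, x, y), v => v = Mo.gp i x y ∨ v = Mo.gp i (x + 1) y
  | Sum.inr (i, true, x, y), v => v = Mo.gp i x y ∨ v = Mo.gp i x (y + 1)

/-- raw horizontal edge from `(x, y)` to `(x + 1, y)` -/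
def he (i : Mo.I) (x y : ℕ) : M.E ⊕ (Mo.I × Bool × ℕ × ℕ) :=
  if y = 0 then Sum.inl (Mo.ge i x)
  else if y = Mo.b i then Sum.inl (Mo.ge i (2 * Mo.a i + Mo.b i - x - 1))
  else Sum.inr (i, false, x, y)

/-- raw vertical edge from `(x, y)` to `(x, y + 1)` -/
def ve (i : Mo.I) (x y : ℕ) : M.E ⊕ (Mo.I × Bool × ℕ × ℕ) :=
  if x = 0 then Sum.inl (Mo.ge i (2 * (Mo.a i + Mo.b i) - y - 1))
  else if x = Mo.a i then Sum.inl (Mo.ge i (Mo.a i + y))
  else Sum.inr (i, true, x, y)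

/-- raw incidence face - edge; the cell `(x, y)` is the unit square with lower left corner `(x, y)` -/
def rbd : M.F ⊕ (Mo.I × ℕ × ℕ) → M.E ⊕ (Mo.I × Bool × ℕ × ℕ) → Prop
  | Sum.inl f, e => ∃ e', M.bd f e' ∧ e = Sum.inl e'
  | Sum.inr (i, x, y), e => e = Mo.he i x y ∨ e = Mo.he i x (y + 1) ∨ e = Mo.ve i x y ∨
      e = Mo.ve i (x + 1) y

theorem finV' : Finite {v // Mo.okV v} := by
  have : Finite (M.V ⊕ (Σ i : Mo.I, Fin (Mo.a i) × Fin (Mo.b i))) := inferInstance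
  refine Finite.of_injective (β := M.V ⊕ (Σ i : Mo.I, Fin (Mo.a i) × Fin (Mo.b i)))
    (fun v => match v with
      | ⟨Sum.inl x, _⟩ => Sum.inl x
      | ⟨Sum.inr (i, x, y), h⟩ => Sum.inr ⟨i, ⟨x, h.2.1⟩, ⟨y, h.2.2.2⟩⟩) ?_
  rintro ⟨x | ⟨i, x, y⟩, h⟩ ⟨x' | ⟨i', x', y'⟩, h'⟩ heq
  · simp at heq; subst heq; rfl
  · simp at heq
  · simp at heq
  · simp only [Sum.inr.injEq, Sigma.mk.injEq] at heq
    obtain ⟨rfl, h2⟩ := heq
    simp at h2
    obtain ⟨rfl, rfl⟩ := h2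
    rfl

theorem finE' : Finite {e // Mo.okE e} := by
  have : Finite (M.E ⊕ (Σ i : Mo.I, Bool × Fin (Mo.a i) × Fin (Mo.b i))) := inferInstance
  refine Finite.of_injective (β := M.E ⊕ (Σ i : Mo.I, Bool × Fin (Mo.a i) × Fin (Mo.b i)))
    (fun v => match v with
      | ⟨Sum.inl x, _⟩ => Sum.inl x
      | ⟨Sum.inr (i, false, x, y), h⟩ => Sum.inr ⟨i, false, ⟨x, h.1⟩, ⟨y, h.2.2⟩⟩
      | ⟨Sum.inr (i, true, x, y), h⟩ => Sum.inr ⟨i, true, ⟨x, h.2.1⟩, ⟨y, h.2.2⟩⟩) ?_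
  rintro ⟨x | ⟨i, _ | _, x, y⟩, h⟩ ⟨x' | ⟨i', _ | _, x', y'⟩, h'⟩ heq
  all_goals first
    | (simp at heq; done)
    | (simp at heq; subst heq; rfl)
    | (simp only [Sum.inr.injEq, Sigma.mk.injEq] at heq
       obtain ⟨rfl, h2⟩ := heq
       simp at h2
       try (obtain ⟨rfl, rfl⟩ := h2
            rfl))

theorem finF' : Finite {f // Mo.okF f} := by
  have : Finite (M.F ⊕ (Σ i : Mo.I, Fin (Mo.a i) × Fin (Mo.b i))) := inferInstance
  refine Finite.of_injective (β := M.F ⊕ (Σ i : Mo.I, Fin (Mo.a i) × Fin (Mo.b i)))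
    (fun v => match v with
      | ⟨Sum.inl x, _⟩ => Sum.inl x
      | ⟨Sum.inr (i, x, y), h⟩ => Sum.inr ⟨i, ⟨x, h.1⟩, ⟨y, h.2⟩⟩) ?_
  rintro ⟨x | ⟨i, x, y⟩, h⟩ ⟨x' | ⟨i', x', y'⟩, h'⟩ heq
  · simp at heq; subst heq; rfl
  · simp at heq
  · simp at heq
  · simp only [Sum.inr.injEq, Sigma.mk.injEq] at heq
    obtain ⟨rfl, h2⟩ := heq
    simp at h2
    obtain ⟨rfl, rfl⟩ := h2
    rfl

end Mouths

/-- The glued complex: the disc `c i` is replaced by the grid `[0,a i] x [0,b i]`. -/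
def glue (M : PC) (Mo : Mouths M) : PC where
  V := {v : M.V ⊕ (Mo.I × ℕ × ℕ) // Mo.okV v}
  E := {e : M.E ⊕ (Mo.I × Bool × ℕ × ℕ) // Mo.okE e}
  F := {f : M.F ⊕ (Mo.I × ℕ × ℕ) // Mo.okF f}
  finV := @Fintype.ofFinite _ Mo.finV'
  finE := @Fintype.ofFinite _ Mo.finE'
  finF := @Fintype.ofFinite _ Mo.finF'
  inc e v := Mo.rinc e.1 v.1
  bd f e := Mo.rbd f.1 e.1

end Pool.Agent.H.MP_c8cc4c_co
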