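import Mathlib

/-!
# MP_c8cc4c_co : drawings and book embeddings

The definitions used in the statement of the theorem.

* `BookLE G b`: `G` has a book embedding with `b` pages.
* `Drawing G k`: a drawing of `G` in which every edge has at most `k` crossings.
* `KPlanar k G`: `G` has such a drawing.
-/

open scoped Classical
open Finset

noncomputable section

namespace Pool.Agent.H.MP_c8cc4c_co

/-- `G` has a book embedding with `b` pages: `pos` gives the order of the vertices, `page` the pages of
the edges; if `x < y < u < w` then the edges `xu` and `yw` are on different pages. -/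
def BookLE {W : Type} (G : SimpleGraph W) (b : ℕ) : Prop :=
  ∃ (pos : W → ℕ) (page : Sym2 W → Fin b), Function.Injective pos ∧
    ∀ x y u w, G.Adj x u → G.Adj y w → pos x < pos y → pos y < pos u → pos u < pos w →
      page s(x, u) ≠ page s(y, w)

/-- the orbits of the permutation `p` which meet the set `X` -/
def orbs {D : Type} (p : Equiv.Perm D) (X : Set D) : Set (Set D) :=
  (fun d => {x | p.SameCycle d x}) '' X

/-- A drawing of `G` in which every edge has at most `k` crossings, given by its planarisation as a
combinatorial map: `D` = darts (ends of segments), `σ` = next dart around the same point, `α` = other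
end of the segment; `lab d = some w` if the dart `d` starts at the vertex `w`, `lab d = none`
if it starts at a crossing point. -/
structure Drawing {W : Type} (G : SimpleGraph W) (k : ℕ) where
  D : Type
  [finD : Fintype D]
  σ : Equiv.Perm D
  α : Equiv.Perm D
  α_inv : ∀ d, α (α d) = d
  α_ne : ∀ d, α d ≠ d
  lab : D → Option W
  lab_σ : ∀ d, lab (σ d) = lab d
  /-- all darts at a vertex are around one point -/
  one_orbit : ∀ d d' w, lab d = some w → lab d' = some w → σ.SameCycle d d'
  /-- a crossing point has exactly four darts -/
  cross : ∀ d, lab d = none → σ (σ d) ≠ d ∧ σ (σ (σ (σ d))) = d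
  /-- planarity: every connected component of the map has `V - E + F = 2` -/
  planar : ∀ d : D, ∀ X : Set D,
    (∀ x, x ∈ X ↔ Relation.ReflTransGen (fun a b => b = σ a ∨ b = α a) d x) →
    (orbs σ X).ncard + (orbs (α.trans σ) X).ncard = (orbs α X).ncard + 2
  /-- the trail which starts with the dart `d` at a vertex goes straight on at crossings, and
  reaches a vertex adjacent to the first one after at most `k` crossings -/
  trail : ∀ d w, lab d = some w → ∃ j ≤ k, ∃ w', G.Adj w w' ∧
    (∀ i < j, lab (α ((fun a => σ (σ (α a)))^[i] d)) = none) ∧
    lab (α ((fun a => σ (σ (α a)))^[j] d)) = some w'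
  /-- every edge of `G` is represented by exactly one trail from `w` to `w'` -/
  edges : ∀ w w', G.Adj w w' → ∃! d, lab d = some w ∧ ∃ j,
    (∀ i < j, lab (α ((fun a => σ (σ (α a)))^[i] d)) = none) ∧
    lab (α ((fun a => σ (σ (α a)))^[j] d)) = some w'

/-- `G` has a `k`-planar drawing -/
def KPlanar {W : Type} (k : ℕ) (G : SimpleGraph W) : Prop := Nonempty (Drawing G k)

end Pool.Agent.H.MP_c8cc4c_co
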