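import Mathlib
import Pool.Agent.H.MP_c8cc4c_co.Defs
import Pool.Agent.H.MP_c8cc4c_co.Book

/-!
# MP_c8cc4c_co : interface of the parts

Part K (drawings):      `KPlanar`, `BookLE`, `conversion`
Part E (Euler):         `h1_of_euler`, `euler_of_sphere`, `e5`
Part G (gluing):        `glue_sphere`, `glue_quad`, `glue_deg`
Part S (static cut):    `CutOut`, `static_cut`
Part L (LLC):           `LLC`, `llc`
Part T (existence):     `TEOut`, `te`
Part R (real walks):    `real_walks`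
Part O (one step):      `OSTOut`, `ost`
Part F (flag spheres):  `contour`, `alt_in`, `alt_out`, `frontier_conn`, `compl_conn`
Part P (pages):         `powers`
-/

open scoped Classical
open Finset

noncomputable section

namespace Pool.Agent.H.MP_c8cc4c_co

/-! ### Books and drawings -/

/-- powers: the vertices of every quadrangulated sphere of maximum degree at most `D` can be ordered and
the pairs at distance at most `r` distributed to `b` pages -/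
def PowersBound (D r b : ℕ) : Prop :=
  ∀ M : PC, M.IsSphere → M.Quad → M.Simple → (∀ v, M.deg v ≤ D) →
    ∃ (pos : M.V → ℕ) (page : Sym2 M.V → Fin b), Function.Injective pos ∧
      ∀ x y u w, Near M.graph Set.univ r x u → Near M.graph Set.univ r y w →
        pos x < pos y → pos y < pos u → pos u < pos w → page s(x, u) ≠ page s(y, w)

/-! ### Static cutting -/

/-- the depth function -/
def rho (n : ℕ) : ℕ := n ^ 2 + n

/-- `c` is bad for the vertex set `W` (inside the region `Q`) -/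
def Bad (M : PC) (W Q : Set M.V) (c : M.F → ZMod 2) : Prop :=
  (∀ v ∈ M.vs (M.dF c), v ∈ W) ∧ (∀ f x, M.At f x → x ∉ Q → c f = 0) ∧
  ∃ x ∈ W, ∃ y ∈ W, (∀ f, M.At f x → c f = 1) ∧ (∀ f, M.At f y → c f = 0) ∧
    (∀ v ∈ M.vs (M.dF c), ¬ Near M.graph W (rho (M.wt (M.dF c))) x v) ∧
    (∀ v ∈ M.vs (M.dF c), ¬ Near M.graph W (rho (M.wt (M.dF c))) y v)

/-- the output of static cutting of the region `Q` at scale `l1` -/
structure CutOut (M : PC) (Q : Set M.V) (l1 : ℕ) (Mo : Mouths M) : Prop where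
  inQ : ∀ i f x, Mo.c i f ≠ 0 → M.At f x → x ∈ Q
  iso : ∀ i s t k, s ≤ t → t < Mo.n i → Near M.graph Q k (Mo.gv i s) (Mo.gv i t) →
    t - s ≤ k ∨ Mo.n i - (t - s) ≤ k
  len : ∀ i, Mo.n i ≤ l1
  conn : ConnOn M.graph (Q ∩ Mo.Real)
  near : ∀ x ∈ Q ∩ Mo.Real, ∀ y ∈ Q ∩ Mo.Real, ∀ k, Near M.graph Q k x y →
    Near M.graph (Q ∩ Mo.Real) k x y
  nobad : ∀ c, M.wt (M.dF c) ≤ l1 → ¬ Bad M (Q ∩ Mo.Real) Q c

/-- the vertices of the glued complex which are vertices of `M` outside `Q` -/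
def gO {M : PC} (Mo : Mouths M) (Q : Set M.V) : Set (glue M Mo).V :=
  {v | ∃ x, v.1 = Sum.inl x ∧ x ∉ Q}

/-! ### LLC -/

/-- Linear local connectivity: no chain with short boundary outside `O` separates two vertices
outside `O` which are far from its boundary. -/
def LLC (N : PC) (O : Set N.V) (lmax : ℕ) (ρ : ℕ → ℕ) : Prop :=
  ∀ l ≤ lmax, ∀ c : N.F → ZMod 2, N.wt (N.dF c) ≤ l → (∀ v ∈ N.vs (N.dF c), v ∉ O) →
    ∀ x y, x ∉ O → y ∉ O → (∀ f, N.At f x → c f = 1) → (∀ f, N.At f y → c f = 0) →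
      (∃ v ∈ N.vs (N.dF c), Near N.graph Oᶜ (ρ l) x v) ∨
      ∃ v ∈ N.vs (N.dF c), Near N.graph Oᶜ (ρ l) y v

/-- the function in the LLC property of the glued complex -/
def rhoP (l : ℕ) : ℕ := rho (3 * l) + 6 * l * (4 * rho (3 * l) + 2) + 3 * l + 3

/-! ### Existence of the tree of bodies -/

/-- The tree of bodies. `par i = some j` (`j < i`): the parent of body `i` is body `j`; `par i = none`:
the parent is `O` (if `root = true`), or `i = 0` is the root (if `root = false`). -/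
structure TEOut (N : PC) (O : Set N.V) (r1 smin s3 Ld rho1 rhof : ℕ) where
  n : ℕ
  X : ℕ → Set N.V
  Dr : ℕ → Set N.V
  par : ℕ → Option ℕ
  root : Bool
  X_conn : ∀ i < n, ConnOn N.graph (X i)
  X_O : ∀ i < n, ∀ x ∈ X i, x ∉ O
  X_min : ∀ i < n, smin ≤ (X i).ncard
  X_max : ∀ i < n, (X i).ncard ≤ s3
  par_lt : ∀ i < n, ∀ j, par i = some j → j < i
  par_root : root = false → 0 < n ∧ ∀ i < n, (par i = none ↔ i = 0)
  D_conn : ∀ i < n, ConnOn N.graph (Dr i)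
  D_card : ∀ i < n, (Dr i).ncard ≤ Ld
  D_X : ∀ i < n, ∃ x ∈ Dr i, x ∈ X i
  D_par : ∀ i < n, ∀ j, par i = some j → ∃ x ∈ Dr i, x ∈ X j
  D_O : root = true → ∀ i < n, par i = none → ∃ x ∈ Dr i, x ∈ O
  F1 : ∀ i < n, ∀ j < n, i ≠ j → ∀ x ∈ X i, ∀ y ∈ X j, ¬ Near N.graph Set.univ r1 x y
  F2 : ∀ i < n, ∀ j < n, j ≠ i → par i ≠ some j → ∀ x ∈ Dr i, ∀ y ∈ X j,
    ¬ Near N.graph Set.univ r1 x y
  F3 : ∀ i < n, ∀ j < n, i ≠ j → ¬ (par i = none ∧ par j = none) → ∀ x ∈ Dr i, ∀ y ∈ Dr j,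
    ¬ Near N.graph Set.univ r1 x y
  F4 : ∀ i < n, ∀ x ∈ X i, ∀ y ∈ O, ¬ Near N.graph Set.univ r1 x y
  F4' : ∀ i < n, (par i ≠ none ∨ root = false) → ∀ x ∈ Dr i, ∀ y ∈ O,
    ¬ Near N.graph Set.univ r1 x y
  F5 : ∀ v, (∃ i < n, ∃ x ∈ X i, Near N.graph Set.univ rho1 v x) ∨
    ∃ y ∈ O, Near N.graph Set.univ rhof v y
  F6 : root = true → ∀ i < n, par i = none → ∀ x ∈ Dr i, ∃ y ∈ O, Near N.graph Set.univ rhof x y

/-! ### One step -/

/-- The output of one step for the region `Q`: `V0` is the set of vertices ordered now, the components of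
`Q \ V0` are the children; `S` is a thin connected set of cells containing everything outside `Q`. -/
def OSTOut (M : PC) (Q : Set M.V) (r Λ rf C1 C2 : ℕ) : Prop :=
  ∃ V0 : Set M.V, V0 ⊆ Q ∧
  (∀ C, IsComp M.graph (Q \ V0) C → ConnOn M.graph Cᶜ ∧ (M.cut C).card ≤ Λ ∧
    ∀ x ∈ C, ∀ y, y ∉ Q → ¬ Near M.graph Set.univ r x y) ∧
  ((∀ x ∈ V0, ∃ y, y ∉ Q ∧ Near M.graph Set.univ rf x y) ∨
   ∃ S : Set M.Cell, ConnOn M.sd S ∧ ConnOn M.sd Sᶜ ∧
    (∀ c d, M.below c d → d ∈ S → c ∈ S) ∧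
    (∀ f, M.cf f ∈ S → ∀ x, M.At f x → x ∉ Q) ∧
    (∀ x ∈ V0, (∃ y, y ∉ Q ∧ Near M.graph Set.univ rf x y) ∨
      ∃ s ∈ V0, M.cv s ∈ S ∧ Near M.graph V0 C1 x s) ∧
    (∀ x ∈ Q, ∀ y ∈ Q, M.cv x ∈ S → M.cv y ∈ S →
      (∀ z, z ∉ Q → ¬ Near M.graph Set.univ rf x z) →
      (∀ z, z ∉ Q → ¬ Near M.graph Set.univ rf y z) →
      Near M.graph Set.univ (3 * r) x y → Near M.sd S C2 (M.cv x) (M.cv y)) ∧
    (∀ x ∈ Q, x ∉ V0 → ∀ y, M.cv y ∈ S → ¬ Near M.graph Set.univ (2 * r + 4) x y))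

/-! ### The main theorems of the parts, as propositions -/

/-- Part K -/
def ConversionStmt : Prop := ∀ (k Δ b : ℕ) (W : Type) [Fintype W] (G : SimpleGraph W),
  (∀ w, (univ.filter fun u => G.Adj w u).card ≤ Δ) → KPlanar k G →
  PowersBound (2 * max Δ 4) (4 * (k + 1)) b → 0 < b → BookLE G b

/-- Part E: `h1` from the Euler formula -/
def H1EulerStmt : Prop := ∀ M : PC,
  (∀ e, ∃ x y, x ≠ y ∧ ∀ v, M.inc e v ↔ v = x ∨ v = y) →
  (∀ c : M.F → ZMod 2, M.Ev (M.dF c)) → M.dF (fun _ => 1) = 0 →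
  (∀ x y : M.V, ∃ n, Near M.graph Set.univ n x y) →
  Nonempty M.V → Nonempty M.F →
  (∀ c : M.F → ZMod 2, M.dF c = 0 → ∀ f g, c f = c g) →
  ((∀ z : M.E → ZMod 2, M.Ev z → ∃ c : M.F → ZMod 2, M.dF c = z) ↔
    Fintype.card M.V + Fintype.card M.F = Fintype.card M.E + 2)

/-- Part E: a class with at most five neighbours -/
def E5Stmt : Prop := ∀ (X : PC), X.IsSphere → ∀ (I : Type) [Fintype I] (cls : X.V → I),
  (∀ i, ConnOn X.graph {v | cls v = i}) → ∀ star : I, 2 ≤ Fintype.card I →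
  ∃ P, P ≠ star ∧ (univ.filter fun P' => P' ≠ P ∧ ∃ x y, X.graph.Adj x y ∧ cls x = P ∧
    cls y = P').card ≤ 5

/-- Part G -/
def GlueSphereStmt : Prop := ∀ (M : PC), M.IsSphere → ∀ Mo : Mouths M, (glue M Mo).IsSphere

def GlueQuadStmt : Prop := ∀ (M : PC), M.IsSphere → ∀ Mo : Mouths M,
  (∀ f, (∀ i, Mo.c i f = 0) → M.len f = 4) → (glue M Mo).Quad

def GlueDegStmt : Prop := ∀ (M : PC), M.IsSphere → ∀ Mo : Mouths M, ∀ v : (glue M Mo).V,
  (∀ x, v.1 = Sum.inl x → (glue M Mo).deg v ≤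
    M.deg x + (univ.filter fun i => ∃ t, Mo.gv i t = x).card) ∧
  (∀ p, v.1 = Sum.inr p → (glue M Mo).deg v = 4)

/-- Part S -/
def StaticCutStmt : Prop := ∀ (M : PC), M.IsSphere → M.Quad → M.Simple → ∀ Q : Set M.V,
  ConnOn M.graph Q → ConnOn M.graph Qᶜ → ∀ l1, ∃ Mo : Mouths M, CutOut M Q l1 Mo

/-- Part L -/
def LLCStmt : Prop := ∀ (M : PC), M.IsSphere → M.Quad → M.Simple → ∀ Q : Set M.V,
  ConnOn M.graph Q → ConnOn M.graph Qᶜ → ∀ l1 (Mo : Mouths M), CutOut M Q l1 Mo →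
  ∀ lmax, 3 * lmax ≤ l1 → LLC (glue M Mo) (gO Mo Q) lmax rhoP

/-- Part T -/
def TEStmt : Prop := ∀ (D2 r1 : ℕ) (ρ : ℕ → ℕ), ∃ lmax rho1 : ℕ, ∀ smin : ℕ, ∃ s3 Ld rhof : ℕ,
  ∀ (N : PC) (O : Set N.V), N.IsSphere → N.Quad → (∀ v, N.deg v ≤ D2) → ConnOn N.graph O →
    LLC N O lmax ρ →
    (∀ v, ∃ y ∈ O, Near N.graph Set.univ rhof v y) ∨
      Nonempty (TEOut N O r1 smin s3 Ld rho1 rhof)

/-- Part R: the map `Φ` and real counterparts of walks in the glued complex -/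
def RealWalksStmt : Prop := ∀ (M : PC), M.IsSphere → M.Quad → M.Simple → ∀ Q : Set M.V,
  ConnOn M.graph Q → ConnOn M.graph Qᶜ → ∀ l1 (Mo : Mouths M), CutOut M Q l1 Mo →
  ∃ Φ : M.V → (glue M Mo).V,
    (∀ x, x ∈ Mo.Real → (Φ x).1 = Sum.inl x) ∧
    (∀ i x, x ∈ M.intr (Mo.c i) → ∃ u v, (Φ x).1 = Mo.gp i u v) ∧
    (∀ x y, M.graph.Adj x y → Near (glue M Mo).graph Set.univ 2 (Φ x) (Φ y)) ∧
    (∀ (Z : Set (glue M Mo).V) (x y : M.V) (n : ℕ), x ∈ Mo.Real → y ∈ Mo.Real →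
      Near (glue M Mo).graph Z n (Φ x) (Φ y) →
      ∃ m, Near M.graph {z | (∃ w ∈ Z, Near (glue M Mo).graph Set.univ 100 (Φ z) w) ∧
        (z ∈ Mo.Real ∨ ∃ i t, z ∈ M.intr (Mo.c i) ∧
          Near M.graph Set.univ (l1 / 8 + 1) z (Mo.gv i t))} m x y)

/-- Part O -/
def OSTStmt : Prop := ∀ (D r : ℕ), ∃ Λ rf C1 C2 : ℕ, ∀ M : PC, M.IsSphere → M.Quad → M.Simple →
  (∀ v, M.deg v ≤ D) → ∀ Q : Set M.V, ConnOn M.graph Q → ConnOn M.graph Qᶜ →
    OSTOut M Q r Λ rf C1 C2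

/-- Part F: `sdPC M` is a simplicial sphere -/
def SdStmt : Prop := ∀ M : PC, M.IsSphere → Nonempty M.F → M.sdPC.IsSphere ∧ M.sdPC.Simple ∧ M.sdPC.Tri

/-- Part F: contour of `S` -/
def ContourStmt : Prop := ∀ T : PC, T.IsSphere → T.Simple → T.Tri → ∀ S : Set T.V,
  ConnOn T.graph S → ConnOn T.graph Sᶜ →
  ∃ (m : ℕ) (g : ℕ → T.E), 3 ≤ m ∧ (∀ t, g (t + m) = g t) ∧
    (∀ s t, s < m → t < m → g s = g t → s = t) ∧ (∀ e, e ∈ T.cut S ↔ ∃ t, g t = e) ∧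
    (∀ t, ∃ f, T.bd f (g t) ∧ T.bd f (g (t + 1)))

/-- Part F: alternation. `P`, `P'` are connected sets on the same side of the contour. -/
def AltStmt : Prop := ∀ T : PC, T.IsSphere → T.Simple → T.Tri → ∀ S : Set T.V,
  ConnOn T.graph S → ConnOn T.graph Sᶜ →
  ∀ (m : ℕ) (g : ℕ → T.E), 3 ≤ m → (∀ t, g (t + m) = g t) →
    (∀ s t, s < m → t < m → g s = g t → s = t) → (∀ e, e ∈ T.cut S ↔ ∃ t, g t = e) →
    (∀ t, ∃ f, T.bd f (g t) ∧ T.bd f (g (t + 1))) →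
  ∀ i k j l, i < k → k < j → j < l → l < m →
  ∀ A : Set T.V, (A = S ∨ A = Sᶜ) → ∀ P P' : Set T.V, P ⊆ A → P' ⊆ A →
    ConnOn T.graph P → ConnOn T.graph P' →
    (∃ x ∈ P, T.inc (g i) x) → (∃ x ∈ P, T.inc (g j) x) →
    (∃ x ∈ P', T.inc (g k) x) → (∃ x ∈ P', T.inc (g l) x) → ∃ x ∈ P, x ∈ P'

/-- Part F: the frontier of a connected set with connected complement is connected -/
def FrontierStmt : Prop := ∀ T : PC, T.IsSphere → T.Simple → T.Tri → ∀ S : Set T.V,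
  ConnOn T.graph S → ConnOn T.graph Sᶜ →
  ConnOn T.graph {x | x ∉ S ∧ ∃ y ∈ S, T.graph.Adj x y}

/-- Part F: if all even edge sets in `S` are in `O`, the complement of `O` is connected, then
the complement of `S` is connected -/
def ComplConnStmt : Prop := ∀ T : PC, T.IsSphere → T.Simple → T.Tri → ∀ S O : Set T.V,
  O ⊆ S → ConnOn T.graph Oᶜ → (∃ x, x ∉ S) →
  (∀ z : T.E → ZMod 2, T.Ev z → (∀ e x, z e ≠ 0 → T.inc e x → x ∈ S) →
    ∀ e x, z e ≠ 0 → T.inc e x → x ∈ O) →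
  ConnOn T.graph Sᶜ

/-- Part P -/
def PowersStmt : Prop := SdStmt → ContourStmt → AltStmt → FrontierStmt → OSTStmt →
  ∀ D r : ℕ, ∃ b : ℕ, 0 < b ∧ PowersBound D r b

end Pool.Agent.H.MP_c8cc4c_co
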