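import Mathlib
import Pool.Agent.H.MP_c8cc4c_co.Book
import Pool.Agent.H.MP_c8cc4c_co.K.Final
import Pool.Agent.H.MP_c8cc4c_co.G.GlueE
import Pool.Agent.H.MP_c8cc4c_co.G.GlueB
import Pool.Agent.H.MP_c8cc4c_co.O.Final
import Pool.Agent.H.MP_c8cc4c_co.P.Main
import Pool.Agent.H.MP_c8cc4c_co.T.TE
import Pool.Agent.H.MP_c8cc4c_co.E.E5
import Pool.Agent.H.MP_c8cc4c_co.L.LLC
import Pool.Agent.H.MP_c8cc4c_co.S.Final
import Pool.Agent.H.MP_c8cc4c_co.R.Main
import Pool.Agent.H.MP_c8cc4c_co.F.TriB
import Pool.Agent.H.MP_c8cc4c_co.F.TriC
import Pool.Agent.H.MP_c8cc4c_co.F.TriD
import Pool.Agent.H.MP_c8cc4c_co.F.SdC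

/-!
# Book thickness of k-planar graphs of bounded degree

For all `k` and `Δ` there is a number `b` such that every finite graph of maximum degree at most `Δ`
which has a `k`-planar drawing has a book embedding with `b` pages.

Proof in outline.
1. (part K) A `k`-planar graph of maximum degree `Δ` is a subgraph of the `4 (k + 1)`-th power of a
   simple quadrangulation of the sphere of maximum degree at most `2 max(Δ, 4)` (planarisation, gluing
   and subdivision), so it is enough to put the pairs of vertices at distance at most `r` of a
   quadrangulated sphere of bounded degree on boundedly many pages (`PowersBound`).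
2. (part O, one step) Let `Q` be a connected set of vertices with connected complement. There is a set
   `V0 ⊆ Q` such that every component of `Q \ V0` is far from the complement of `Q`, has connected
   complement and boundedly many boundary edges, and `V0` is in bounded distance of a thin connected set
   of cells, which has bounded distortion. It is made of bodies of bounded size and connections between
   them which form a tree (part T), found in a modified sphere in which bottlenecks are cut off and
   replaced by grids (parts S, G, L, R).
3. (part P) By recursion on the regions: the vertices of `V0` are ordered along the contour of the thin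
   set, children regions are inserted as intervals; pages by bounded crossing numbers of anchored pairs
   (parts F, P).
-/

open scoped Classical
open Finset

namespace Pool.Agent.H.MP_c8cc4c_co.BoundedDegree

open Pool.Agent.H.MP_c8cc4c_co

theorem result (k Δ : ℕ) :
    ∃ b : ℕ, ∀ (W : Type) [Fintype W] (G : SimpleGraph W),
      (∀ w, (univ.filter fun u => G.Adj w u).card ≤ Δ) → KPlanar k G → BookLE G b := by
  have hO : OSTStmt := ost (te e5) Sp.static_cut (Lp.llc glue_sphere) glue_sphere glue_quad glue_deg
    real_walks compl_conn sd_sphere
  obtain ⟨b, hb, h⟩ := Pg.powers sd_sphere contour alt frontier hO (2 * max Δ 4) (4 * (k + 1))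
  exact ⟨b, fun W _ G hd hK => conversion glue_sphere glue_quad glue_deg k Δ b W G hd hK h hb⟩

end Pool.Agent.H.MP_c8cc4c_co.BoundedDegree
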